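import Pool.Agent.U199.K3.FK
import Pool.Agent.Q35.TB.All

/-!
# Local ideals at the rational points of double covers of `(ℙ¹)ⁿ`
-/

set_option autoImplicit false

namespace Pool.Agent.U199.K3

open Set Filter Topology MvPolynomial Pool.Agent.TH729.CV Pool.Agent.Q35.TT

section

variable {K L : Type} [Field K] [NontriviallyNormedField L] [CompleteSpace L] [CharZero L] {n : ℕ}

/-- the variables `w, z` numbered by `0, 1, …, n` -/
def opt (i : Fin (n + 1)) : Option (Fin n) := Fin.cases none some i

lemma eval_opt (g : MvPolynomial (Fin (n + 1)) K) (W : K) (z : Fin n → K) :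
    eval (fun o => o.elim W z) (rename opt g) = eval (Fin.cons W z : Fin (n + 1) → K) g := by
  rw [eval_rename]
  congr 2
  funext i
  refine Fin.cases ?_ (fun j => ?_) i
  · rfl
  · rfl

/-- the affine double cover `w² = f(z)` -/
def dc (f : MvPolynomial (Fin n) K) : Set (Fin (n + 1) → K) :=
  {u | u 0 ^ 2 = eval (fun k => u k.succ) f}

/-- the affine double cover `w² = f(z)`, `w ≠ 0` -/
def dc0 (f : MvPolynomial (Fin n) K) : Set (Fin (n + 1) → K) :=
  {u | u 0 ≠ 0 ∧ u 0 ^ 2 = eval (fun k => u k.succ) f}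

lemma IA_dc0 (σ : K →+* L) (f : MvPolynomial (Fin n) K) (y : Fin (n + 1) → K) (hy : y 0 ≠ 0) :
    (IA σ (dc0 f) (fun i => σ (y i)) : Set (MvPolynomial (Fin (n + 1)) K)) =
      {g | rename opt g ∈ locN σ f (σ (y 0)) fun i => σ (y i.succ)} := by
  ext g
  constructor
  · intro hg
    have hg' := mem_IA.1 hg
    have h0 : ∀ᶠ z : Fin (n + 1) → L in 𝓝 fun i => σ (y i), z 0 ≠ 0 := by
      refine (continuous_apply (0 : Fin (n + 1))).continuousAt.eventually_ne ?_
      exact (map_ne_zero σ).2 hy
    have hc : Continuous fun a : L × (Fin n → L) => (Fin.cons a.1 a.2 : Fin (n + 1) → L) := by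
      refine continuous_pi fun i => ?_
      refine Fin.cases ?_ (fun j => ?_) i
      · simpa using continuous_fst
      · exact (continuous_apply j).comp continuous_snd
    have hy' : (Fin.cons (σ (y 0)) (fun i : Fin n => σ (y i.succ)) : Fin (n + 1) → L) =
        fun i => σ (y i) := by
      funext i
      refine Fin.cases ?_ (fun j => ?_) i
      · rfl
      · rfl
    have ht : Tendsto (fun a : L × (Fin n → L) => (Fin.cons a.1 a.2 : Fin (n + 1) → L))
        (𝓝 (σ (y 0), fun i => σ (y i.succ))) (𝓝 fun i => σ (y i)) := by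
      have := hc.tendsto (σ (y 0), fun i => σ (y i.succ))
      rwa [hy'] at this
    refine ⟨_, ht.eventually (hg'.and h0), ?_⟩
    rintro W z hW ⟨h1, h2⟩
    rw [eval_opt]
    refine h1 (Fin.cons W z) ⟨?_, ?_⟩ ?_
    · intro h
      apply h2
      change W = 0 at h
      change σ W = 0
      rw [h, map_zero]
    · simpa using hW
    · funext i
      refine Fin.cases ?_ (fun j => ?_) i
      · rfl
      · rfl
  · rintro ⟨U, hU, hg⟩
    show g ∈ IA σ (dc0 f) _
    rw [mem_IA]
    have hc : Continuous fun z : Fin (n + 1) → L => (z 0, fun i : Fin n => z i.succ) := by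
      fun_prop
    have ht := hc.tendsto (fun i => σ (y i))
    filter_upwards [ht.eventually hU] with z hz u hu huz
    have h1 := hg (u 0) (fun k => u k.succ) hu.2 (by
      rw [← huz] at hz
      exact hz)
    rw [eval_opt] at h1
    rwa [show (Fin.cons (u 0) fun k : Fin n => u k.succ : Fin (n + 1) → K) = u from
      Fin.cons_self_tail u] at h1

lemma IA_congr (σ : K →+* L) (f : MvPolynomial (Fin n) K) (y : Fin (n + 1) → K) (hy : y 0 ≠ 0) :
    IA σ (dc f) (fun i => σ (y i)) = IA σ (dc0 f) (fun i => σ (y i)) := by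
  ext g
  have h0 : ∀ᶠ z : Fin (n + 1) → L in 𝓝 fun i => σ (y i), z 0 ≠ 0 := by
    refine (continuous_apply (0 : Fin (n + 1))).continuousAt.eventually_ne ?_
    exact (map_ne_zero σ).2 hy
  constructor
  · intro hg
    rw [mem_IA] at hg ⊢
    filter_upwards [hg] with z hz u hu huz
    exact hz u hu.2 huz
  · intro hg
    rw [mem_IA] at hg ⊢
    filter_upwards [hg, h0] with z hz hz0 u hu huz
    refine hz u ⟨fun h => hz0 ?_, hu⟩ huz
    rw [← huz]
    show σ (u 0) = 0
    rw [h, map_zero]

end

/-- finitely many local ideals at the rational points off the branch divisor -/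
theorem fk_dc0 {K L : Type} [Field K] [NumberField K] [NontriviallyNormedField L] [CompleteSpace L]
    [CharZero L]
    (σ : K →+* L) (hσ : DenseRange σ) {n : ℕ} (f : MvPolynomial (Fin n) K)
    (hf : ∀ j, f.degreeOf j ≤ 4) (hs : SmoothN f) (hfin : FinSpec f) : FK σ (dc0 f) := by
  obtain ⟨-, h, -⟩ := Pool.Agent.Q35.TB.mzm2 K n f hf hs hfin L σ hσ
  refine Set.Finite.of_finite_image (f := fun I : Ideal (MvPolynomial (Fin (n + 1)) K) =>
    (I : Set (MvPolynomial (Fin (n + 1)) K)))
    ((h.image fun J => {g | rename opt g ∈ J}).subset ?_) SetLike.coe_injective.injOn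
  rintro _ ⟨_, ⟨y, hy, rfl⟩, rfl⟩
  refine ⟨locN σ f (σ (y 0)) (fun i => σ (y i.succ)),
    ⟨σ (y 0), fun i => σ (y i.succ), (map_ne_zero σ).2 hy.1, ?_, rfl⟩, (IA_dc0 σ f y hy.1).symm⟩
  rw [← map_pow, hy.2]
  have := eval₂_comp_left σ (RingHom.id K) (fun k : Fin n => y k.succ) f
  rw [RingHom.comp_id] at this
  exact this

/-- finitely many local ideals at all rational points, if the branch divisor has only finitely many
rational points -/
theorem fk_dc {K L : Type} [Field K] [NumberField K] [NontriviallyNormedField L] [CompleteSpace L]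
    [CharZero L]
    (σ : K →+* L) (hσ : DenseRange σ) {n : ℕ} (f : MvPolynomial (Fin n) K)
    (hf : ∀ j, f.degreeOf j ≤ 4) (hs : SmoothN f) (hfin : FinSpec f)
    (hb : {z : Fin n → K | eval z f = 0}.Finite) : FK σ (dc f) := by
  have h1 : (dc f \ dc0 f).Finite := by
    refine (hb.image fun z => (Fin.cons 0 z : Fin (n + 1) → K)).subset ?_
    rintro u ⟨hu, hu0⟩
    have h2 : u 0 = 0 := by
      by_contra h
      exact hu0 ⟨h, hu⟩
    refine ⟨fun k => u k.succ, ?_, ?_⟩
    · have h3 : u 0 ^ 2 = eval (fun k => u k.succ) f := hu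
      rw [h2] at h3
      show eval (fun k => u k.succ) f = 0
      rw [← h3]
      ring
    · funext i
      refine Fin.cases ?_ (fun j => ?_) i
      · exact h2.symm
      · rfl
  refine ((fk_dc0 σ hσ f hf hs hfin).union
    (h1.image fun y : Fin (n + 1) → K => IA σ (dc f) fun i => σ (y i))).subset ?_
  rintro _ ⟨y, hy, rfl⟩
  by_cases hy0 : y 0 = 0
  · exact Or.inr ⟨y, ⟨hy, fun h => h.1 hy0⟩, rfl⟩
  · exact Or.inl ⟨y, ⟨hy0, hy⟩, (IA_congr σ f y hy0).symm⟩

end Pool.Agent.U199.K3
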