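import Pool.Agent.TH729.BQ.Cyl

/-!
# Local ideals at the rational points: products, cylinders, isolated values

Variants, for the ideals at the points of the set itself only, of the theorems of
`Pool/Agent/TH729/CV/Aff.lean`, `Pool/Agent/TH729/CV/Iso.lean` and `Pool/Agent/TH729/BQ/Cyl.lean`.
-/

set_option autoImplicit false
set_option linter.unusedSimpArgs false
set_option linter.unusedTactic false
set_option linter.unusedSectionVars false

namespace Pool.Agent.U199.K3

open Set Filter Topology MvPolynomial Pool.Agent.TH729.CV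

variable {L : Type*} [NontriviallyNormedField L] [CompleteSpace L] [CharZero L]

variable {k : Type*} [Field k] {τ : Type*} [Finite τ] {κ : Type*} [Finite κ]

/-- finitely many local ideals at the points of the set -/
def FK (σ : k →+* L) (D : Set (τ → k)) : Prop := ((fun y : τ → k => IA σ D fun i => σ (y i)) '' D).Finite

lemma FK.of_FA {σ : k →+* L} {D : Set (τ → k)} (h : FA σ D) : FK σ D := by
  refine Set.Finite.subset h ?_
  rintro _ ⟨y, -, rfl⟩
  exact ⟨_, rfl⟩

/-- **products** -/
theorem FK.prod {ι : Type*} [Finite ι] {σ : k →+* L} {D : ι → Set (τ → k)}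
    (h : ∀ j, FK σ (D j)) : FK σ (PD D) := by
  classical
  have := Fintype.ofFinite ι
  have h1 : (Set.pi univ fun j => (fun y : τ → k => IA σ (D j) fun i => σ (y i)) '' D j).Finite :=
    Set.Finite.pi fun j => h j
  set Φ : (ι × τ → k) → (ι → Ideal (MvPolynomial τ k)) :=
    fun y j => IA σ (D j) fun i => σ (y (j, i)) with hΦ
  have h2 : (Φ '' PD D).Finite := by
    refine h1.subset ?_
    rintro _ ⟨y, hy, rfl⟩ j _
    exact ⟨fun i => y (j, i), hy j, rfl⟩
  have h3 : ∀ y y', Φ y = Φ y' → IA σ (PD D) (fun s => σ (y s)) = IA σ (PD D) fun s => σ (y' s) :=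
    fun y y' hy => le_antisymm (IA_prod_le σ D fun j => congrFun hy j)
      (IA_prod_le σ D fun j => (congrFun hy j).symm)
  have hex : ∀ w : ι → Ideal (MvPolynomial τ k), ∃ I : Ideal (MvPolynomial (ι × τ) k),
      ∀ y, Φ y = w → IA σ (PD D) (fun s => σ (y s)) = I := by
    intro w
    by_cases hw : ∃ y, Φ y = w
    · obtain ⟨y, hy⟩ := hw
      exact ⟨_, fun y' hy' => h3 _ _ (hy'.trans hy.symm)⟩
    · exact ⟨⊤, fun y hy => (hw ⟨y, hy⟩).elim⟩
  choose Ψ hΨ using hex
  refine (h2.image Ψ).subset ?_
  rintro _ ⟨y, hy, rfl⟩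
  exact ⟨Φ y, ⟨y, hy, rfl⟩, (hΨ _ y rfl).symm⟩

/-- the local ideals of a cylinder -/
theorem IA_cyl {σ : k →+* L} (hσ : DenseRange σ) {τ τ' : Type*} [Finite τ] [Finite τ']
    {D : Set (τ → k)} {e : τ → τ'} (he : Function.Injective e) (x : τ' → L) :
    (IA σ {y : τ' → k | (fun i => y (e i)) ∈ D} x : Set (MvPolynomial τ' k)) =
      {f | ∀ (w : τ' → k) (g : MvPolynomial τ k),
        (∀ v, eval v g = eval (Function.extend e v w) f) → g ∈ IA σ D fun i => x (e i)} := by
  classical
  set D' : Set (τ' → k) := {y : τ' → k | (fun i => y (e i)) ∈ D} with hD'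
  have hinf : ∀ (a : L) (t : Set L), t ∈ 𝓝 a → {c : k | σ c ∈ t}.Infinite := by
    intro a t ht hfin
    obtain ⟨t', ht', ht'o, hat'⟩ := mem_nhds_iff.1 ht
    have h1 : (σ '' {c : k | σ c ∈ t}).Finite := hfin.image _
    have h2 : a ∈ closure (t' \ σ '' {c : k | σ c ∈ t}) := by
      have h3 : a ∈ closure (t' \ {a}) := by
        rw [mem_closure_iff_frequently]
        have h4 : ∀ᶠ z in 𝓝[≠] a, z ∈ t' \ {a} := by
          filter_upwards [nhdsWithin_le_nhds (ht'o.mem_nhds hat'), self_mem_nhdsWithin]
            with z h5 h6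
          exact ⟨h5, h6⟩
        exact h4.frequently.filter_mono nhdsWithin_le_nhds
      rw [mem_closure_iff_frequently]
      have h5 : ∀ᶠ z in 𝓝[≠] a, z ∈ t' \ σ '' {c : k | σ c ∈ t} := by
        have h6 : (σ '' {c : k | σ c ∈ t} \ {a})ᶜ ∈ 𝓝 a :=
          (h1.subset Set.sdiff_subset).isClosed.isOpen_compl.mem_nhds fun h => h.2 rfl
        filter_upwards [nhdsWithin_le_nhds (ht'o.mem_nhds hat'), nhdsWithin_le_nhds h6,
          self_mem_nhdsWithin] with z h7 h8 h9
        exact ⟨h7, fun h => h8 ⟨h, h9⟩⟩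
      exact h5.frequently.filter_mono nhdsWithin_le_nhds
    obtain ⟨z, hz⟩ : (t' \ σ '' {c : k | σ c ∈ t}).Nonempty := by
      by_contra hne
      rw [Set.not_nonempty_iff_eq_empty] at hne
      rw [hne, closure_empty] at h2
      exact h2
    obtain ⟨c, hc⟩ := hσ.exists_mem_open (ht'o.inter h1.isClosed.isOpen_compl) ⟨z, hz⟩
    exact hc.2 ⟨c, ht' hc.1, rfl⟩
  ext f
  constructor
  · intro hf w g hg
    have hf' := mem_IA.1 hf
    rw [nhds_pi] at hf'
    obtain ⟨I, hI, t, ht, hsub⟩ := Filter.mem_pi.1 hf'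
    rw [mem_IA]
    have h1 : ∀ᶠ z : τ → L in 𝓝 fun i => x (e i), ∀ i, z i ∈ t (e i) := by
      rw [Filter.eventually_all]
      intro i
      exact (continuous_apply i).continuousAt (ht (e i))
    filter_upwards [h1] with z hz v hv hvz
    rw [hg]
    -- the polynomial in the other variables
    obtain ⟨p, hp⟩ := exists_ext (τ'' := τ')
      (fun i' => if h : ∃ i, e i = i' then Sum.inr (v h.choose) else Sum.inl i') f
    have hp' : ∀ w', eval w' p = eval (Function.extend e v w') f := by
      intro w'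
      rw [hp]
      congr 1
      congr 1
      funext i'
      by_cases h : ∃ i, e i = i'
      · obtain ⟨i, rfl⟩ := h
        rw [dif_pos ⟨i, rfl⟩, he.extend_apply]
        have : (⟨i, rfl⟩ : ∃ i₀, e i₀ = e i).choose = i :=
          he (⟨i, rfl⟩ : ∃ i₀, e i₀ = e i).choose_spec
        simp [this]
      · rw [dif_neg h, Function.extend_apply' _ _ _ h]
        rfl
    have hp0 : p = 0 := by
      refine MvPolynomial.funext_set (s := fun i' => {c : k | σ c ∈ t i'})
        (fun i' => hinf (x i') _ (ht i')) fun w' hw' => ?_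
      rw [hp', map_zero]
      refine hsub (a := fun i' => σ (Function.extend e v w' i')) ?_ _ ?_ rfl
      · intro i' _
        by_cases h : ∃ i, e i = i'
        · obtain ⟨i, rfl⟩ := h
          show σ (Function.extend e v w' (e i)) ∈ t (e i)
          rw [he.extend_apply]
          have := hz i
          rw [← hvz] at this
          exact this
        · show σ (Function.extend e v w' i') ∈ t i'
          rw [Function.extend_apply' _ _ _ h]
          exact hw' i' (Set.mem_univ _)
      · show (fun i => Function.extend e v w' (e i)) ∈ D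
        have : (fun i => Function.extend e v w' (e i)) = v := by
          funext i
          rw [he.extend_apply]
        rw [this]
        exact hv
    rw [← hp', hp0, map_zero]
  · intro hf
    show f ∈ IA σ D' x
    rw [mem_IA]
    have hc : Continuous fun z : τ' → L => (fun i => z (e i)) :=
      continuous_pi fun i => continuous_apply _
    filter_upwards [(hc.tendsto x).eventually (IA_stab σ D fun i => x (e i))] with z hz y hy hyz
    obtain ⟨g, hg⟩ := exists_ext (τ'' := τ)
      (fun i' => if h : ∃ i, e i = i' then Sum.inl h.choose else Sum.inr (y i')) f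
    have hg' : ∀ v, eval v g = eval (Function.extend e v y) f := by
      intro v
      rw [hg]
      congr 1
      congr 1
      funext i'
      by_cases h : ∃ i, e i = i'
      · obtain ⟨i, rfl⟩ := h
        rw [dif_pos ⟨i, rfl⟩, he.extend_apply]
        have : (⟨i, rfl⟩ : ∃ i₀, e i₀ = e i).choose = i :=
          he (⟨i, rfl⟩ : ∃ i₀, e i₀ = e i).choose_spec
        simp [this]
      · rw [dif_neg h, Function.extend_apply' _ _ _ h]
        rfl
    have h1 : g ∈ IA σ D fun i => x (e i) := hf y g hg'
    have h2 := hz (fun i => y (e i)) hy (by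
      rw [← hyz]) g h1
    rw [hg'] at h2
    have h3 : Function.extend e (fun i => y (e i)) y = y := by
      funext i'
      by_cases h : ∃ i, e i = i'
      · obtain ⟨i, rfl⟩ := h
        rw [he.extend_apply]
      · rw [Function.extend_apply' _ _ _ h]
    rwa [h3] at h2

/-- **cylinders** -/
theorem FK.cyl {σ : k →+* L} (hσ : DenseRange σ) {τ τ' : Type*} [Finite τ] [Finite τ']
    {D : Set (τ → k)} (h : FK σ D) {e : τ → τ'} (he : Function.Injective e) :
    FK σ {y : τ' → k | (fun i => y (e i)) ∈ D} := by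
  refine Set.Finite.of_finite_image (f := fun I : Ideal (MvPolynomial τ' k) =>
    (I : Set (MvPolynomial τ' k))) ((h.image fun I : Ideal (MvPolynomial τ k) =>
      {f | ∀ (w : τ' → k) (g : MvPolynomial τ k),
        (∀ v, eval v g = eval (Function.extend e v w) f) → g ∈ I}).subset ?_)
      SetLike.coe_injective.injOn
  rintro _ ⟨_, ⟨y, hy, rfl⟩, rfl⟩
  exact ⟨_, ⟨fun i => y (e i), hy, rfl⟩, (IA_cyl (D := D) hσ he fun i => σ (y i)).symm⟩

/-- **isolated values** -/
theorem FK.vals_isolated {σ : k →+* L} {P : Set (τ → k)} (h : FK σ P) {Ω : Set (τ → L)}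
    (hΩ : IsOpen Ω) (p : κ → MvPolynomial τ k) (q : MvPolynomial τ k) :
    {t ∈ Vals σ P Ω p q | ∃ U ∈ 𝓝 (fun i => σ (t i)), ∀ s ∈ Vals σ P Ω p q,
      (fun i => σ (s i)) ∈ U → s = t}.Finite := by
  classical
  set T := {t ∈ Vals σ P Ω p q | ∃ U ∈ 𝓝 (fun i => σ (t i)), ∀ s ∈ Vals σ P Ω p q,
      (fun i => σ (s i)) ∈ U → s = t} with hT
  have hch : ∀ t : κ → k, ∃ y : τ → k, t ∈ T → y ∈ P ∧ (fun i => σ (y i)) ∈ Ω ∧
      eval y q ≠ 0 ∧ ∀ i, t i = eval y (p i) / eval y q := by
    intro t
    by_cases ht : t ∈ T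
    · obtain ⟨y, hy⟩ := ht.1
      exact ⟨y, fun _ => hy⟩
    · exact ⟨fun _ => 0, fun h => (ht h).elim⟩
  choose y hy using hch
  refine Set.Finite.of_finite_image (f := fun t => IA σ P fun i => σ (y t i))
    (Set.Finite.subset h (by rintro _ ⟨t, ht, rfl⟩; exact ⟨y t, (hy t ht).1, rfl⟩)) ?_
  -- the polynomial of an isolated value
  have hcont : ∀ f : MvPolynomial τ k, Continuous fun z : τ → L => eval₂ σ z f := by
    intro f
    induction f using MvPolynomial.induction_on with
    | C a => simpa using continuous_const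
    | add p q hp hq =>
      simp only [eval₂_add]
      exact hp.add hq
    | mul_X p i hp =>
      simp only [eval₂_mul, eval₂_X]
      exact hp.mul (continuous_apply i)
  have hco : ∀ (f : MvPolynomial τ k) (w : τ → k),
      eval₂ σ (fun i => σ (w i)) f = σ (eval w f) := by
    intro f w
    have := eval₂_comp_left σ (RingHom.id k) w f
    rw [RingHom.comp_id] at this
    exact this.symm
  have hmem : ∀ t ∈ T, ∀ j, p j - C (t j) * q ∈ IA σ P fun i => σ (y t i) := by
    intro t ht j
    obtain ⟨h1, h2, h3, h4⟩ := hy t ht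
    obtain ⟨-, U, hU, hU'⟩ := ht
    rw [mem_IA]
    have hq0 : eval₂ σ (fun i => σ (y t i)) q ≠ 0 := by
      rw [hco]
      exact (map_ne_zero σ).2 h3
    have e1 : ∀ᶠ z in 𝓝 (fun i => σ (y t i)), eval₂ σ z q ≠ 0 :=
      (hcont q).continuousAt.eventually_ne hq0
    have e2 : Tendsto (fun z : τ → L => fun i => eval₂ σ z (p i) / eval₂ σ z q)
        (𝓝 fun i => σ (y t i)) (𝓝 fun i => σ (t i)) := by
      refine tendsto_pi_nhds.2 fun i => ?_
      have := ((hcont (p i)).tendsto (fun i => σ (y t i))).div ((hcont q).tendsto _) hq0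
      rwa [hco, hco, ← map_div₀, ← h4] at this
    filter_upwards [e1, e2.eventually hU, hΩ.mem_nhds h2] with z hz1 hz2 hz3 w hw hwz
    rw [← hwz, hco] at hz1
    have hz1' : eval w q ≠ 0 := fun h => hz1 (by rw [h, map_zero])
    change (fun i => eval₂ σ z (p i) / eval₂ σ z q) ∈ U at hz2
    have hz4 : (fun i => σ (eval w (p i) / eval w q)) ∈ U := by
      have h5 : (fun i => σ (eval w (p i) / eval w q)) =
          fun i => eval₂ σ z (p i) / eval₂ σ z q := by
        funext i
        rw [← hwz, hco, hco, map_div₀]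
      rw [h5]
      exact hz2
    have h5 := hU' (fun i => eval w (p i) / eval w q)
      ⟨w, hw, by rw [hwz]; exact hz3, hz1', fun _ => rfl⟩ hz4
    have h6 : t j = eval w (p j) / eval w q := (congrFun h5 j).symm
    rw [map_sub, map_mul, eval_C, h6]
    field_simp
    ring
  intro t ht s hs hts
  obtain ⟨g1, g2, g3, g4⟩ := hy t ht
  funext j
  have h1 := hmem s hs j
  have h2 : p j - C (s j) * q ∈ IA σ P fun i => σ (y t i) := by
    have hts' : IA σ P (fun i => σ (y t i)) = IA σ P fun i => σ (y s i) := hts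
    rw [hts']
    exact h1
  have h3 := (mem_IA.1 h2).self_of_nhds (y t) g1 rfl
  rw [map_sub, map_mul, eval_C, sub_eq_zero] at h3
  rw [g4 j, h3]
  field_simp

end Pool.Agent.U199.K3
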