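import Pool.Agent.U199.K3.Cov
import Mathlib.Algebra.MvPolynomial.Funext

/-!
# Isolated values on double covers of `(ℙ¹)ⁿ`: one finite set for all twists over all extensions of
bounded degree
-/

set_option autoImplicit false

namespace Pool.Agent.U199.K3

open Set Filter Topology MvPolynomial Pool.Agent.TH729.CV Pool.Agent.Q35.TT Pool.Agent.Q35.TB

/-- substitution of the coordinates outside `J` -/
noncomputable def subP {K : Type} [Field K] {n : ℕ} (J : Finset (Fin n)) (z : Fin n → K)
    (g : MvPolynomial (Fin n) K) : MvPolynomial (Fin n) K :=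
  aeval (fun k => if k ∈ J then X k else C (z k)) g

lemma eval_subP {K : Type} [Field K] {n : ℕ} (J : Finset (Fin n)) (z y : Fin n → K)
    (g : MvPolynomial (Fin n) K) :
    eval y (subP J z g) = eval (fun k => if k ∈ J then y k else z k) g := by
  unfold subP
  have h1 : eval y (aeval (fun k => if k ∈ J then (X k : MvPolynomial (Fin n) K) else C (z k)) g) =
      eval₂ (RingHom.id K) (fun k => eval y (if k ∈ J then (X k : MvPolynomial (Fin n) K)
        else C (z k))) g := by
    rw [aeval_def, eval₂_comp_left (eval y)]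
    congr 1
    ext a
    simp
  rw [h1]
  change _ = eval₂ (RingHom.id K) _ g
  congr 1
  funext k
  split_ifs <;> simp

lemma onPl_iff {K : Type} {n : ℕ} (J : Finset (Fin n)) (z y : Fin n → K) :
    OnPl J z y ↔ (fun k => if k ∈ J then y k else z k) = y := by
  constructor
  · intro h
    funext k
    by_cases hk : k ∈ J
    · rw [if_pos hk]
    · rw [if_neg hk, h k hk]
  · intro h k hk
    have := congrFun h k
    simp only [if_neg hk] at this
    exact this.symm

lemma plane_zero_iff {K : Type} [Field K] [Infinite K] {n : ℕ} (J : Finset (Fin n)) (z : Fin n → K)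
    (g : MvPolynomial (Fin n) K) : (∀ y, OnPl J z y → eval y g = 0) ↔ subP J z g = 0 := by
  constructor
  · intro h
    refine MvPolynomial.funext fun y => ?_
    rw [eval_subP, map_zero]
    refine h _ fun k hk => ?_
    simp only [if_neg hk]
  · intro h y hy
    have := eval_subP J z y g
    rw [h, map_zero, (onPl_iff J z y).1 hy] at this
    exact this.symm

lemma subP_map {K L : Type} [Field K] [Field L] (φ : K →+* L) {n : ℕ} (J : Finset (Fin n))
    (z : Fin n → K) (g : MvPolynomial (Fin n) K) :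
    map φ (subP J z g) = subP J (fun k => φ (z k)) (map φ g) := by
  unfold subP
  induction g using MvPolynomial.induction_on with
  | C a => simp
  | add p q hp hq => simp only [map_add, hp, hq]
  | mul_X p i hp =>
    simp only [map_mul, hp, map_X, aeval_X]
    split_ifs <;> simp

/-- polynomials which vanish on a plane vanish on its extension -/
lemma plane_ext {K L : Type} [Field K] [Field L] [Infinite K] [Infinite L] (φ : K →+* L) {n : ℕ}
    (J : Finset (Fin n)) (z : Fin n → K) (g : MvPolynomial (Fin n) K)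
    (h : ∀ y, OnPl J z y → eval y g = 0) :
    ∀ y, OnPl J (fun k => φ (z k)) y → eval y (map φ g) = 0 := by
  rw [plane_zero_iff, ← subP_map, (plane_zero_iff J z g).1 h, map_zero]

lemma pderiv_map' {K L : Type} [Field K] [Field L] (φ : K →+* L) {n : ℕ} (k : Fin n)
    (g : MvPolynomial (Fin n) K) : pderiv k (map φ g) = map φ (pderiv k g) :=
  MvPolynomial.pderiv_map

lemma specN_ext {K L : Type} [Field K] [Field L] [Infinite K] [Infinite L] (φ : K →+* L) {n : ℕ}
    (f : MvPolynomial (Fin n) K) (z : Fin n → K) (J : Finset (Fin n)) (h : SpecN f z J) :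
    SpecN (map φ f) (fun k => φ (z k)) J := by
  intro k hk
  obtain ⟨c, hc⟩ := h k hk
  refine ⟨φ c, ?_⟩
  have h1 : ∀ y, OnPl J z y → eval y (pderiv k f - C c * f) = 0 := by
    intro y hy
    rw [map_sub, map_mul, eval_C, hc y hy, sub_self]
  intro y hy
  have h2 := plane_ext φ J z _ h1 y hy
  rw [map_sub, map_mul, map_C, map_sub, map_mul, eval_C, sub_eq_zero] at h2
  rw [pderiv_map', h2]

lemma eval_map' {K L : Type} [Field K] [Field L] (φ : K →+* L) {n : ℕ} (z : Fin n → K)
    (g : MvPolynomial (Fin n) K) : eval (fun k => φ (z k)) (map φ g) = φ (eval z g) := by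
  rw [eval_map]
  have := eval₂_comp_left φ (RingHom.id K) z g
  rw [RingHom.comp_id] at this
  exact this.symm

/-- the special planes over an extension -/
lemma finSpec_of_ext {K L : Type} [Field K] [Field L] [Infinite K] [Infinite L] (φ : K →+* L)
    {n : ℕ} (f : MvPolynomial (Fin n) K) (h : FinSpec (map φ f)) : FinSpec f := by
  intro J hJ hJu
  have h1 := h J hJ hJu
  -- the plane over `L` determines the plane over `K`
  refine Set.Finite.of_finite_image (f := fun P : Set (Fin n → K) =>
    {y : Fin n → L | ∃ z ∈ P, OnPl J (fun k => φ (z k)) y}) (h1.subset ?_) ?_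
  · rintro _ ⟨P, ⟨z, hz, hsp, rfl⟩, rfl⟩
    refine ⟨fun k => φ (z k), ?_, specN_ext φ f z J hsp, ?_⟩
    · rw [eval_map']
      exact (map_ne_zero φ).2 hz
    · ext y
      constructor
      · rintro ⟨z', hz', hy⟩ k hk
        rw [hy k hk]
        exact congrArg φ (hz' k hk)
      · intro hy
        exact ⟨z, fun k _ => rfl, hy⟩
  · rintro P ⟨z, hz, hsp, rfl⟩ P' ⟨z', hz', hsp', rfl⟩ hPP
    have h2 : (fun k => φ (z k)) ∈ {y : Fin n → L | ∃ a ∈ {y | OnPl J z' y},
        OnPl J (fun k => φ (a k)) y} := by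
      have h3 : (fun k => φ (z k)) ∈ {y : Fin n → L | ∃ a ∈ {y | OnPl J z y},
          OnPl J (fun k => φ (a k)) y} := ⟨z, fun k _ => rfl, fun k _ => rfl⟩
      exact (Set.ext_iff.1 hPP _).1 h3
    obtain ⟨a, ha, hza⟩ := h2
    have h3 : ∀ k, k ∉ J → z k = z' k := by
      intro k hk
      have h4 : φ (z k) = φ (a k) := hza k hk
      rw [φ.injective h4]
      exact ha k hk
    ext y
    constructor
    · intro hy k hk
      rw [hy k hk, h3 k hk]
    · intro hy k hk
      rw [hy k hk, h3 k hk]

/-- The values of `(p₁/q, …, p_m/q)` at the points `(w, z)`, `w ≠ 0`, of `w² = e f(z)` which lie in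
`Ω`. -/
def tval {L M : Type} [Field L] [Field M] (σ : L →+* M) {n : ℕ} {κ : Type}
    (f : MvPolynomial (Fin n) L) (e : L) (Ω : Set (Fin (n + 1) → M))
    (p : κ → MvPolynomial (Fin n) L) (q : MvPolynomial (Fin n) L) : Set (κ → L) :=
  {t | ∃ u : Fin (n + 1) → L, u 0 ≠ 0 ∧ u 0 ^ 2 = e * eval (fun k => u k.succ) f ∧
    (fun k => σ (u k)) ∈ Ω ∧ eval (fun k => u k.succ) q ≠ 0 ∧
    ∀ i, t i = eval (fun k => u k.succ) (p i) / eval (fun k => u k.succ) q}

lemma continuous_eval₂' {L M : Type} [Field L] [NontriviallyNormedField M] (σ : L →+* M) {n : ℕ}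
    (f : MvPolynomial (Fin n) L) : Continuous fun z : Fin n → M => eval₂ σ z f := by
  induction f using MvPolynomial.induction_on with
  | C a => simpa using continuous_const
  | add p q hp hq =>
    simp only [eval₂_add]
    exact hp.add hq
  | mul_X p i hp =>
    simp only [eval₂_mul, eval₂_X]
    exact hp.mul (continuous_apply i)

lemma eval₂_co' {L M : Type} [Field L] [Field M] (σ : L →+* M) {n : ℕ}
    (f : MvPolynomial (Fin n) L) (w : Fin n → L) :
    eval₂ σ (fun i => σ (w i)) f = σ (eval w f) := by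
  have := eval₂_comp_left σ (RingHom.id L) w f
  rw [RingHom.comp_id] at this
  exact this.symm

/-- at an isolated value the functions are constant on the planes in which the point moves -/
lemma const_of_full {L M : Type} [Field L] [NontriviallyNormedField M] (σ : L →+* M) {n : ℕ}
    {κ : Type} [Finite κ] (f : MvPolynomial (Fin n) L) (e : L)
    (Ω : Set (Fin (n + 1) → M)) (hΩ : IsOpen Ω)
    (p : κ → MvPolynomial (Fin n) L) (q : MvPolynomial (Fin n) L) (t : κ → L)
    (hiso : ∃ U ∈ 𝓝 (fun i => σ (t i)), ∀ s ∈ tval σ f e Ω p q, (fun i => σ (s i)) ∈ U → s = t)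
    (u : Fin (n + 1) → L) (hu0 : u 0 ≠ 0)
    (hΩu : (fun k => σ (u k)) ∈ Ω) (hq : eval (fun k => u k.succ) q ≠ 0)
    (ht : ∀ i, t i = eval (fun k => u k.succ) (p i) / eval (fun k => u k.succ) q)
    (J : Finset (Fin n)) (hJ : Full σ (C e * f) J (fun k => u k.succ) (u 0)) (i : κ) :
    ∀ y, OnPl J (fun k => u k.succ) y → eval y (p i) = t i * eval y q := by
  intro y hy
  by_contra hne
  obtain ⟨U, hU, hiso⟩ := hiso
  -- a neighbourhood of the point
  have e0 : ∀ᶠ z : Fin (n + 1) → M in 𝓝 (fun k => σ (u k)), z 0 ≠ 0 :=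
    (continuous_apply (0 : Fin (n + 1))).continuousAt.eventually_ne ((map_ne_zero σ).2 hu0)
  have hcs : Continuous fun z : Fin (n + 1) → M => fun k : Fin n => z k.succ := by fun_prop
  have hc : ∀ g : MvPolynomial (Fin n) L,
      Continuous fun z : Fin (n + 1) → M => eval₂ σ (fun k : Fin n => z k.succ) g := fun g =>
    (continuous_eval₂' σ g).comp hcs
  have hq0 : eval₂ σ (fun k : Fin n => σ (u k.succ)) q ≠ 0 := by
    rw [eval₂_co' σ q fun k => u k.succ]
    exact (map_ne_zero σ).2 hq
  have e1 : ∀ᶠ z : Fin (n + 1) → M in 𝓝 (fun k => σ (u k)),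
      eval₂ σ (fun k : Fin n => z k.succ) q ≠ 0 := (hc q).continuousAt.eventually_ne hq0
  have e2 : Tendsto (fun z : Fin (n + 1) → M => fun i =>
      eval₂ σ (fun k : Fin n => z k.succ) (p i) / eval₂ σ (fun k : Fin n => z k.succ) q)
      (𝓝 fun k => σ (u k)) (𝓝 fun i => σ (t i)) := by
    refine tendsto_pi_nhds.2 fun i => ?_
    have h5 := ((hc (p i)).tendsto (fun k => σ (u k))).div ((hc q).tendsto _) hq0
    have h6 : eval₂ σ (fun k : Fin n => σ (u k.succ)) (p i) /
        eval₂ σ (fun k : Fin n => σ (u k.succ)) q = σ (t i) := by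
      rw [eval₂_co' σ (p i) fun k => u k.succ, eval₂_co' σ q fun k => u k.succ, ← map_div₀, ← ht i]
    rwa [h6] at h5
  have e3 := ((e0.and e1).and (e2.eventually hU)).and (hΩ.mem_nhds hΩu)
  obtain ⟨ε, hε, hball⟩ := Metric.mem_nhds_iff.1 e3
  obtain ⟨z', w', k1, k2, k3, k4, k5⟩ := hJ ε hε (p i - C (t i) * q) ⟨y, hy, by
    rw [map_sub, map_mul, eval_C, sub_ne_zero]
    exact hne⟩
  set u' : Fin (n + 1) → L := Fin.cons w' z' with hu'
  have hs' : (fun k : Fin n => u' k.succ) = z' := by
    funext k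
    simp [hu']
  have hin : (fun k => σ (u' k)) ∈ Metric.ball (fun k => σ (u k)) ε := by
    rw [Metric.mem_ball, dist_pi_lt_iff hε]
    intro k
    rw [dist_eq_norm]
    refine Fin.cases ?_ (fun j => ?_) k
    · exact k4
    · exact k3 j
  obtain ⟨⟨⟨g0, g1⟩, g2⟩, g3⟩ := hball hin
  have g1' : eval z' q ≠ 0 := by
    intro h
    apply g1
    rw [show (fun k : Fin n => σ (u' k.succ)) = fun k => σ (z' k) from by
      funext k; rw [← hs'], eval₂_co', h, map_zero]
  have g0' : u' 0 ≠ 0 := by
    intro h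
    apply g0
    show σ (u' 0) = 0
    rw [h, map_zero]
  have g2' : (fun i => σ (eval z' (p i) / eval z' q)) ∈ U := by
    have h5 : (fun i => σ (eval z' (p i) / eval z' q)) = fun i =>
        eval₂ σ (fun k : Fin n => σ (u' k.succ)) (p i) /
          eval₂ σ (fun k : Fin n => σ (u' k.succ)) q := by
      funext i
      rw [show (fun k : Fin n => σ (u' k.succ)) = fun k => σ (z' k) from by
        funext k; rw [← hs'], eval₂_co', eval₂_co', map_div₀]
    rw [h5]
    exact g2
  have h5 := hiso (fun i => eval z' (p i) / eval z' q) ⟨u', g0', by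
    rw [hs']
    have : u' 0 = w' := by simp [hu']
    rw [this, k1, map_mul, eval_C], g3, by rw [hs']; exact g1', fun i => by rw [hs']⟩ g2'
  apply k5
  rw [map_sub, map_mul, eval_C, ← congrFun h5 i]
  field_simp
  ring

/-- **One finite set for all twists over all extensions of bounded degree.** -/
theorem uniform (K : Type) [Field K] [NumberField K] (n : ℕ) (f : MvPolynomial (Fin n) K)
    (hf : ∀ j, f.degreeOf j ≤ 4) (hs : SmoothN f) (hfin : FinSpec (ex (AlgebraicClosure K) f))
    (hex : ∀ (L : Type) [Field L] [Algebra K L] [Algebra.IsAlgebraic K L],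
      (∀ j, (ex L f).degreeOf j ≤ 4) ∧ (SmoothN f ↔ SmoothN (ex L f)))
    (D : ℕ) (κ : Type) [Finite κ] (p : κ → MvPolynomial (Fin n) K) (q : MvPolynomial (Fin n) K) :
    ∃ V : Set (κ → AlgebraicClosure K), V.Finite ∧
      ∀ (L : Type) [Field L] [NumberField L] [Algebra K L], Module.finrank K L ≤ D →
      ∀ e : L, e ≠ 0 →
      ∀ (M : Type) [NontriviallyNormedField M] [CompleteSpace M] (σ : L →+* M), DenseRange σ →
      ∀ Ω : Set (Fin (n + 1) → M), IsOpen Ω →
      ∀ t ∈ tval σ (ex L f) e Ω (fun i => ex L (p i)) (ex L q),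
        (∃ U ∈ 𝓝 (fun i => σ (t i)), ∀ s ∈ tval σ (ex L f) e Ω (fun i => ex L (p i)) (ex L q),
          (fun i => σ (s i)) ∈ U → s = t) →
        ∀ φ : L →ₐ[K] AlgebraicClosure K, (fun i => φ (t i)) ∈ V := by
  classical
  set A := AlgebraicClosure K with hA
  obtain ⟨T, hT, hT2⟩ := taf2 K n f hf hs D
  -- the values on planes
  set vals : Set (Fin n → A) → Set (κ → A) := fun P =>
    {v | (∃ y ∈ P, eval y (ex A q) ≠ 0) ∧ ∀ y ∈ P, ∀ i, eval y (ex A (p i)) = v i * eval y (ex A q)}
    with hvals
  have hvf : ∀ P, (vals P).Finite := by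
    intro P
    refine Set.Subsingleton.finite ?_
    rintro v ⟨⟨y, hy, hy0⟩, hv⟩ v' ⟨-, hv'⟩
    funext i
    have h1 := (hv y hy i).symm.trans (hv' y hy i)
    exact mul_right_cancel₀ hy0 h1
  set PL : Set (Set (Fin n → A)) := {Set.univ} ∪ ⋃ J : Finset (Fin n),
    {P | J.Nonempty ∧ J ≠ Finset.univ ∧ ∃ z, eval z (ex A f) ≠ 0 ∧ SpecN (ex A f) z J ∧
      P = {y | OnPl J z y}} with hPL
  have hPLf : PL.Finite := by
    refine (Set.finite_singleton _).union (Set.finite_iUnion fun J => ?_)
    by_cases hJ : J.Nonempty ∧ J ≠ Finset.univ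
    · refine (hfin J hJ.1 hJ.2).subset ?_
      rintro P ⟨-, -, hP⟩
      exact hP
    · refine Set.Finite.subset Set.finite_empty ?_
      rintro P ⟨h1, h2, -⟩
      exact hJ ⟨h1, h2⟩
  refine ⟨((fun z : Fin n → A => fun i => eval z (ex A (p i)) / eval z (ex A q)) '' T) ∪
    ⋃ P ∈ PL, vals P, (hT.image _).union (hPLf.biUnion fun P _ => hvf P), ?_⟩
  intro L _ _ _ hLD e he M _ _ σ hσ Ω hΩ t ht hiso φ
  have : Module.Finite K L := Module.Finite.of_restrictScalars_finite ℚ K L
  have : Algebra.IsAlgebraic K L := Algebra.IsAlgebraic.of_finite K L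
  have : Infinite L := CharZero.infinite L
  have hinfA : Infinite A := by
    have : CharZero A := charZero_of_injective_algebraMap (algebraMap K A).injective
    exact CharZero.infinite A
  obtain ⟨u, hu0, hu1, hu2, hu3, hu4⟩ := ht
  have hmapφ : ∀ g : MvPolynomial (Fin n) K, map (φ : L →+* A) (ex L g) = ex A g := by
    intro g
    show map (φ : L →+* A) (map (algebraMap K L) g) = map (algebraMap K A) g
    rw [MvPolynomial.map_map, φ.comp_algebraMap]
  have hevφ : ∀ (z : Fin n → L) (g : MvPolynomial (Fin n) K),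
      eval (fun k => φ (z k)) (ex A g) = φ (eval z (ex L g)) := by
    intro z g
    rw [← hmapφ]
    exact eval_map' (φ : L →+* A) z (ex L g)
  by_cases htor : ∀ i, TorN (ex L f) (fun k => u k.succ) i
  · left
    refine ⟨fun k => φ (u k.succ), hT2 L hLD _ htor φ, ?_⟩
    funext i
    show eval _ _ / eval _ _ = φ (t i)
    rw [hevφ, hevφ, ← map_div₀, hu4 i]
  · right
    obtain ⟨i0, hi0⟩ := not_forall.1 htor
    -- the twist
    have hfinL : FinSpec (ex L f) := by
      refine finSpec_of_ext (φ : L →+* A) (ex L f) ?_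
      rw [hmapφ]
      exact hfin
    obtain ⟨t1, t2, t3, t4⟩ := inv2 L n (ex L f) (hex L).1 e he
    have hne : eval (fun k => u k.succ) (ex L f) ≠ 0 := by
      intro h
      rw [h, mul_zero] at hu1
      exact hu0 (by simpa using hu1)
    obtain ⟨J, hJ, hfull, hspec⟩ := cla_of orn2 L M σ hσ n (C e * ex L f) t1
      (t2 ((hex L).2.1 hs)) (t3 hfinL) (fun k => u k.succ) (u 0) hu0 (by
        rw [map_mul, eval_C]
        exact hu1) ⟨i0, fun h => hi0 (((t4 _).1 i0).1 h)⟩
    have hconst := const_of_full σ (ex L f) e Ω hΩ (fun i => ex L (p i)) (ex L q) t hiso u hu0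
      hu2 hu3 hu4 J hfull
    have hspec' : SpecN (ex L f) (fun k => u k.succ) J := ((t4 _).2 J).1 hspec
    refine Set.mem_biUnion (x := {y : Fin n → A | OnPl J (fun k => φ (u k.succ)) y}) ?_ ?_
    · by_cases hJu : J = Finset.univ
      · left
        rw [Set.mem_singleton_iff]
        ext y
        simp only [Set.mem_ofPred_eq, Set.mem_univ, iff_true]
        intro k hk
        exact absurd (by rw [hJu]; exact Finset.mem_univ k) hk
      · right
        refine Set.mem_iUnion.2 ⟨J, hJ, hJu, fun k => φ (u k.succ), ?_, ?_, rfl⟩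
        · rw [hevφ]
          exact (map_ne_zero φ).2 hne
        · rw [← hmapφ]
          exact specN_ext (φ : L →+* A) _ _ J hspec'
    · refine ⟨⟨fun k => φ (u k.succ), fun k _ => rfl, ?_⟩, ?_⟩
      · rw [hevφ]
        exact (map_ne_zero φ).2 hu3
      · intro y hy i
        have h1 : ∀ y, OnPl J (fun k => u k.succ) y →
            eval y (ex L (p i) - C (t i) * ex L q) = 0 := by
          intro y hy
          rw [map_sub, map_mul, eval_C, hconst i y hy, sub_self]
        have h2 := plane_ext (φ : L →+* A) J _ _ h1 y hy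
        rw [map_sub, map_mul, map_C, hmapφ, hmapφ, map_sub, map_mul, eval_C, sub_eq_zero] at h2
        exact h2

end Pool.Agent.U199.K3
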